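import Mathlib
import Pool.Agent.RS.Main

/-!
# Monochromatic arithmetic progressions in the Rudin–Shapiro sequence

`rsh n` (in `Pool.Agent.RS.Basic`) is the parity of the number of occurrences of the block `11` in
the binary expansion of `n`.
-/

namespace Pool.Agent.Results.MP_7fcbce_co.RudinShapiroAP

open Pool.Agent.RS

/-- The `l` terms `n, n + d, …, n + (l-1) d` have the same colour. -/
def IsMono (n d l : ℕ) : Prop := ∀ j < l, rsh (n + j * d) = rsh n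

/-- The length of the longest monochromatic progression with first term `n` and difference `d`,
as an element of `ℕ ∪ {∞}`. -/
noncomputable def A (n d : ℕ) : ℕ∞ := ⨆ l ∈ {l : ℕ | IsMono n d l}, (l : ℕ∞)

/-- The maximal length of a monochromatic progression of difference `d`, in `ℕ ∪ {∞}`. -/
noncomputable def Amax (d : ℕ) : ℕ∞ := ⨆ n : ℕ, A n d

theorem isMono_iff (n d l : ℕ) : IsMono n d l ↔ Mono n d l := by
  unfold IsMono Mono
  constructor
  · intro h j hj; exact (rsh_eq_iff _ _).1 (h j hj)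
  · intro h j hj; exact (rsh_eq_iff _ _).2 (h j hj)

theorem Amax_le (d B : ℕ) (h : ∀ n l, Mono n d l → l ≤ B) : Amax d ≤ (B : ℕ∞) := by
  unfold Amax A
  refine iSup_le fun n => iSup₂_le fun l hl => ?_
  exact_mod_cast h n l ((isMono_iff n d l).1 hl)

theorem le_Amax (n d l : ℕ) (h : Mono n d l) : (l : ℕ∞) ≤ Amax d := by
  unfold Amax A
  refine le_trans ?_ (le_iSup _ n)
  exact le_iSup₂ (f := fun (l : ℕ) (_ : l ∈ {l : ℕ | IsMono n d l}) => (l : ℕ∞)) l
    ((isMono_iff n d l).2 h)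

theorem two_mul_le (a B C : ℕ) (x : ℕ∞) (h : x ≤ (B : ℕ∞)) (hB : 2 * B ≤ C) :
    2 * x ≤ (C : ℕ∞) := by
  calc 2 * x ≤ 2 * (B : ℕ∞) := by gcongr
    _ = ((2 * B : ℕ) : ℕ∞) := by push_cast; rfl
    _ ≤ (C : ℕ∞) := by exact_mod_cast hB

/-- Q1 holds: for every `d ≥ 23`, `A_r(d) ≤ (d+7)/2`, with equality if and only if `d = 2^k - 1`
for some odd `k ≥ 5`. -/
theorem result : ∀ d : ℕ, 23 ≤ d →
    2 * Amax d ≤ (d : ℕ∞) + 7 ∧
    (2 * Amax d = (d : ℕ∞) + 7 ↔ ∃ k : ℕ, 5 ≤ k ∧ Odd k ∧ d = 2 ^ k - 1) := by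
  intro d hd
  have ec : ((d + 7 : ℕ) : ℕ∞) = (d : ℕ∞) + 7 := by push_cast; rfl
  have hle : 2 * Amax d ≤ (d : ℕ∞) + 7 := by
    rw [← ec]
    refine two_mul_le 0 ((d + 7) / 2) (d + 7) _ ?_ (by omega)
    refine Amax_le d _ fun n l hm => ?_
    have := (main_bound d n l hd hm).1
    omega
  refine ⟨hle, ?_, ?_⟩
  · intro heq
    by_contra hcon
    have h2 : Amax d ≤ (((d + 6) / 2 : ℕ) : ℕ∞) := by
      refine Amax_le d _ fun n l hm => ?_
      obtain ⟨h1, h3⟩ := main_bound d n l hd hm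
      have : 2 * l ≠ d + 7 := by
        intro h4
        obtain ⟨k, hk, hk2, hk3⟩ := h3 h4
        exact hcon ⟨k, hk, Nat.odd_iff.2 hk2, hk3⟩
      omega
    have h3 : 2 * Amax d ≤ ((d + 6 : ℕ) : ℕ∞) := two_mul_le 0 ((d + 6) / 2) (d + 6) _ h2 (by omega)
    rw [heq, ← ec] at h3
    have : d + 7 ≤ d + 6 := by exact_mod_cast h3
    omega
  · rintro ⟨k, hk, hodd, rfl⟩
    refine le_antisymm hle ?_
    have hm := sp_attained k hk (Nat.odd_iff.1 hodd)
    have h1 := le_Amax _ _ _ hm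
    have h2 : 2 ^ k = 2 * 2 ^ (k - 1) := by
      conv_lhs => rw [show k = (k - 1) + 1 by omega, pow_succ]
      ring
    rw [← ec]
    have h3 : 2 ^ k - 1 + 7 = 2 * (2 ^ (k - 1) + 3) := by
      have : 0 < 2 ^ (k - 1) := by positivity
      omega
    rw [h3]
    calc ((2 * (2 ^ (k - 1) + 3) : ℕ) : ℕ∞) = 2 * ((2 ^ (k - 1) + 3 : ℕ) : ℕ∞) := by push_cast; rfl
      _ ≤ 2 * Amax (2 ^ k - 1) := by gcongr

end Pool.Agent.Results.MP_7fcbce_co.RudinShapiroAP
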